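import Mathlib
import Pool.Agent.Lib.MP_44d68a_mp.Defs
import Pool.Agent.Lib.MP_44d68a_mp.Positive
import Pool.Agent.Lib.MP_44d68a_mp.Negative

/-!
Real `∨`-systems are locally determined by their matroid and their `ν`-function.
-/

open Pool.Agent.Lib.MP_44d68a_mp

namespace Pool.Agent.Results.MP_44d68a_mp.LocalRigidity

theorem result {V : Type*} [NormedAddCommGroup V] [NormedSpace ℝ V] [FiniteDimensional ℝ V]
    {E : Type*} [Fintype E] (a : E → StrongDual ℝ V) (ha : IsLabelled a) (hirr : Irreducible a) :
    LocallyDetermined a ↔ NoncollinearFamily a ∧ Module.finrank ℝ V ≠ 2 := by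
  classical
  constructor
  · intro h
    refine ⟨?_, fun hdim => ?_⟩
    · by_contra hnc
      exact not_locallyDetermined_of_collinear ha hnc h
    · exact not_locallyDetermined_of_finrank_two ha hirr hdim h
  · rintro ⟨hnc, hdim⟩
    exact positive ha hnc hirr hdim

end Pool.Agent.Results.MP_44d68a_mp.LocalRigidity
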